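import Mathlib

set_option autoImplicit false

namespace Pool.Agent.V11319.TP

open Function

/-- counting systems of representatives inside one class -/
lemma count_class {E X Y : Type*} [Finite E] [Finite X] [Finite Y] (l : E → X) (r : E → Y)
    (S : Set X) (R : Set Y) (hlr : ∀ e, l e ∈ S → r e ∈ R) (c m : ℕ)
    (hc : ∀ x ∈ S, ∀ y ∈ R, Nat.card {e // l e = x ∧ r e = y} = c)
    (hX : Nat.card S = m) (hY : Nat.card R = m) :
    Nat.card {f : S → E // (∀ x : S, l (f x) = x) ∧ Injective (fun x => r (f x))} =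
      m.factorial * c ^ m := by
  classical
  have e : {f : S → E // (∀ x : S, l (f x) = x) ∧ Injective (fun x => r (f x))} ≃
      Σ σ : S ↪ R, ∀ x : S, {e // l e = x ∧ r e = σ x} :=
    { toFun := fun f => ⟨⟨fun x => ⟨r (f.1 x), hlr _ (by rw [f.2.1 x]; exact x.2)⟩, fun x y h => by
          exact f.2.2 (congrArg Subtype.val h)⟩, fun x => ⟨f.1 x, f.2.1 x, rfl⟩⟩
      invFun := fun s => ⟨fun x => (s.2 x).1, fun x => (s.2 x).2.1, fun x y h => by
        simp only [(s.2 x).2.2, (s.2 y).2.2] at h
        exact s.1.injective (Subtype.ext h)⟩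
      left_inv := fun f => rfl
      right_inv := by
        rintro ⟨σ, g⟩
        have h : (⟨fun x => ⟨r (g x).1, hlr _ (by rw [(g x).2.1]; exact x.2)⟩, fun x y h => by
          have h' := congrArg Subtype.val h
          simp only [(g x).2.2, (g y).2.2] at h'
          exact σ.injective (Subtype.ext h')⟩ : S ↪ R) = σ := by
          ext x
          exact (g x).2.2
        refine Sigma.ext h ?_
        apply Function.hfunext rfl
        rintro x y hxy
        cases hxy
        refine (Subtype.heq_iff_coe_eq ?_).2 rfl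
        intro e
        change l e = x ∧ r e = r (g x).1 ↔ l e = x ∧ r e = σ x
        rw [(g x).2.2] }
  have : Fintype S := Fintype.ofFinite _
  have : Fintype R := Fintype.ofFinite _
  have : Fintype E := Fintype.ofFinite _
  rw [Nat.card_congr e, Nat.card_sigma]
  have h1 : ∀ σ : S ↪ R, Nat.card (∀ x : S, {e // l e = x ∧ r e = σ x}) = c ^ m := by
    intro σ
    rw [Nat.card_pi, Finset.prod_congr rfl fun (x : S) _ => hc x.1 x.2 (σ x).1 (σ x).2,
      Finset.prod_const,
      Finset.card_univ, ← Nat.card_eq_fintype_card, hX]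
  rw [Finset.sum_congr rfl fun σ _ => h1 σ, Finset.sum_const, smul_eq_mul, Finset.card_univ,
    Fintype.card_embedding_eq, ← Nat.card_eq_fintype_card, ← Nat.card_eq_fintype_card, hX, hY,
    Nat.descFactorial_self]

/-- the functions that choose an element in every class, class by class -/
lemma count_all {E X Y D : Type*} [Finite E] [Finite X] [Finite Y] [Fintype D] (l : E → X)
    (r : E → Y) (dX : X → D) (dY : Y → D) (hd : ∀ e, dX (l e) = dY (r e)) (c m : D → ℕ)
    (hc : ∀ x y, dX x = dY y → Nat.card {e // l e = x ∧ r e = y} = c (dX x))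
    (hX : ∀ δ, Nat.card {x // dX x = δ} = m δ) (hY : ∀ δ, Nat.card {y // dY y = δ} = m δ) :
    Nat.card {f : X → E // (∀ x, l (f x) = x) ∧ Injective (fun x => r (f x))} =
      ∏ δ, (m δ).factorial * c δ ^ m δ := by
  classical
  let p : ∀ δ, ({x // dX x = δ} → E) → Prop := fun δ F =>
    (∀ x : {x // dX x = δ}, l (F x) = x) ∧ Injective (fun x => r (F x))
  have e : {f : X → E // (∀ x, l (f x) = x) ∧ Injective (fun x => r (f x))} ≃
      ∀ δ, {F : {x // dX x = δ} → E // p δ F} :=
    { toFun := fun f δ => ⟨fun x => f.1 x.1, fun x => f.2.1 x.1, fun x y h => Subtype.ext (f.2.2 h)⟩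
      invFun := fun F => ⟨fun x => (F (dX x)).1 ⟨x, rfl⟩, fun x => (F (dX x)).2.1 ⟨x, rfl⟩, by
        intro x y h
        simp only at h
        have h1 : dX x = dX y := by
          have e1 := hd ((F (dX x)).1 ⟨x, rfl⟩)
          have e2 := hd ((F (dX y)).1 ⟨y, rfl⟩)
          rw [(F (dX x)).2.1 ⟨x, rfl⟩] at e1
          rw [(F (dX y)).2.1 ⟨y, rfl⟩] at e2
          rw [e1, e2, h]
        have h2 : ∀ δ (hx : dX x = δ) (hy : dX y = δ),
            r ((F δ).1 ⟨x, hx⟩) = r ((F δ).1 ⟨y, hy⟩) → x = y := fun δ hx hy h =>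
          congrArg Subtype.val ((F δ).2.2 h)
        have h3 : r ((F (dX x)).1 ⟨x, rfl⟩) = r ((F (dX x)).1 ⟨y, h1.symm⟩) := by
          rw [h]
          have : ∀ δ (hy : dX y = δ), (F (dX y)).1 ⟨y, rfl⟩ = (F δ).1 ⟨y, hy⟩ := by
            rintro δ rfl; rfl
          rw [this _ h1.symm]
        exact h2 _ rfl h1.symm h3⟩
      left_inv := fun f => rfl
      right_inv := fun F => by
        funext δ
        apply Subtype.ext
        funext x
        obtain ⟨x, rfl⟩ := x
        rfl }
  rw [Nat.card_congr e, Nat.card_pi]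
  refine Finset.prod_congr rfl fun δ _ => ?_
  exact count_class l r {x | dX x = δ} {y | dY y = δ} (fun e he => by
    change dY (r e) = δ
    rw [← hd]; exact he) (c δ) (m δ) (fun x hx y hy => by
      rw [← (show dX x = δ from hx)]
      exact hc x y ((show dX x = δ from hx).trans (show dY y = δ from hy).symm)) (hX δ) (hY δ)

lemma card_fib {E Z : Type*} [Finite E] [Finite Z] (A : Set E) (B : Set Z) (q : E → Z)
    (h : ∀ e ∈ A, q e ∈ B) (k : ℕ) (hk : ∀ z ∈ B, Nat.card {e // e ∈ A ∧ q e = z} = k) :
    Nat.card A = Nat.card B * k := by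
  classical
  have : Fintype E := Fintype.ofFinite _
  have : Fintype Z := Fintype.ofFinite _
  have h1 : Nat.card A = A.toFinset.card := by
    rw [Nat.card_eq_fintype_card, Set.toFinset_card]
  have h2 : Nat.card B = B.toFinset.card := by
    rw [Nat.card_eq_fintype_card, Set.toFinset_card]
  rw [h1, h2, Finset.card_eq_sum_card_fiberwise (f := q) (t := B.toFinset)
    (fun e he => by
      rw [Finset.mem_coe, Set.mem_toFinset] at *
      exact h e he)]
  rw [Finset.sum_congr rfl (g := fun _ => k), Finset.sum_const, smul_eq_mul]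
  intro z hz
  rw [← hk z (Set.mem_toFinset.1 hz), Nat.card_eq_fintype_card, Fintype.card_subtype]
  congr 1
  ext e
  simp

end Pool.Agent.V11319.TP
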